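import Mathlib
import Pool.Agent.H53.ShadowAlg
import Pool.Agent.H53.ShadowPoly
import Pool.Agent.H53.ShadowZeros

/-!
# The boundary of the shadow of a polynomial is not always made of critical values
-/

set_option autoImplicit false

open Polynomial Topology Filter

namespace Pool.Agent.Results.MP_5fa6f1_an.ShadowBoundary

/-- `Q_{n,m}`, the `m`-th derivative of `P ^ n`. -/
noncomputable def Q (P : ℂ[X]) (n m : ℕ) : ℂ[X] := derivative^[m] (P ^ n)

/-- The shadow of `P`: the closure of the set of all zeros of all `Q_{n,m}`, `n ≥ 1`,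
`0 ≤ m ≤ n * deg P`. -/
def shadow (P : ℂ[X]) : Set ℂ :=
  closure {z : ℂ | ∃ n m : ℕ, 1 ≤ n ∧ m ≤ n * P.natDegree ∧ (Q P n m).eval z = 0}

/-- The same closure when only the exponents `n ≥ N` are used. -/
def tailShadow (P : ℂ[X]) (N : ℕ) : Set ℂ :=
  closure {z : ℂ | ∃ n m : ℕ, N ≤ n ∧ 1 ≤ n ∧ m ≤ n * P.natDegree ∧ (Q P n m).eval z = 0}

/-- The set of distinct zeros. -/
def zeroSet (P : ℂ[X]) : Set ℂ := {z : ℂ | P.eval z = 0}

/-- A finite set of at least three points, each of which is a vertex (an extreme point) of the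
convex hull. -/
def ConvexPosition (Z : Set ℂ) : Prop :=
  Z.Finite ∧ 3 ≤ Z.ncard ∧ ∀ z ∈ Z, z ∈ (convexHull ℝ Z).extremePoints ℝ

/-- `Z` is the vertex set of a regular `k`-gon, `k = |Z|`: it consists of the points
`c + ρ e^{2π i j / k}`, `j = 0, …, k - 1`. -/
def RegularPolygon (Z : Set ℂ) : Prop :=
  ∃ c ρ : ℂ, ρ ≠ 0 ∧
    Z = {z : ℂ | ∃ j : ℕ, j < Z.ncard ∧
      z = c + ρ * Complex.exp (2 * Real.pi * Complex.I * j / Z.ncard)}

/-- The rational function `F_α(z) = z - α P(z) / P'(z)` as a map of the Riemann sphere to itself: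
its value at a point `x` of the sphere is the limit in the sphere of `z - α P(z) / P'(z)` as the
finite point `z` tends to `x`, `z ≠ x`. -/
noncomputable def F (P : ℂ[X]) (α : ℝ) (x : OnePoint ℂ) : OnePoint ℂ :=
  limUnder (comap ((↑) : ℂ → OnePoint ℂ) (𝓝[≠] x))
    (fun z : ℂ => ((z - α * (P.eval z / (derivative P).eval z) : ℂ) : OnePoint ℂ))

/-- `x` is a critical point of the map `f` of the sphere: `f` is not injective on any
neighbourhood of `x`. -/
def IsCriticalPoint (f : OnePoint ℂ → OnePoint ℂ) (x : OnePoint ℂ) : Prop :=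
  ∀ U ∈ 𝓝 x, ¬ Set.InjOn f U

/-- `C_P`: the finite critical values of the maps `F_α`, `α ∈ [0, deg P]`. -/
def criticalValues (P : ℂ[X]) : Set ℂ :=
  {u : ℂ | ∃ α : ℝ, 0 ≤ α ∧ α ≤ P.natDegree ∧
    ∃ x : OnePoint ℂ, IsCriticalPoint (F P α) x ∧ F P α x = (u : OnePoint ℂ)}

section sphere

open Pool.Agent.H53.Shadow

/-- affine formula -/
noncomputable def Fa (α : ℝ) (z : ℂ) : ℂ := z - α * (PP.eval z / (derivative PP).eval z)

lemma F_eq_coe {α : ℝ} {z0 : ℂ} {y : OnePoint ℂ}
    (h : Tendsto (fun z : ℂ => ((Fa α z : ℂ) : OnePoint ℂ)) (𝓝[≠] z0) (𝓝 y)) :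
    F PP α (z0 : OnePoint ℂ) = y := by
  unfold F
  have e : comap ((↑) : ℂ → OnePoint ℂ) (𝓝[≠] (z0 : OnePoint ℂ)) = 𝓝[≠] z0 := by
    have h1 : (𝓝[≠] (z0 : OnePoint ℂ)) = map (↑) (𝓝[≠] z0) := by
      have := OnePoint.nhdsWithin_coe ({(z0 : OnePoint ℂ)}ᶜ) z0
      rw [this]
      congr 2
      ext w; simp
    rw [h1, comap_map OnePoint.coe_injective]
  rw [e]
  exact h.limUnder_eq

lemma F_eq_infty {α : ℝ} {y : OnePoint ℂ}
    (h : Tendsto (fun z : ℂ => ((Fa α z : ℂ) : OnePoint ℂ)) (cocompact ℂ) (𝓝 y)) :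
    F PP α (OnePoint.infty) = y := by
  unfold F
  have e : comap ((↑) : ℂ → OnePoint ℂ) (𝓝[≠] (OnePoint.infty : OnePoint ℂ)) = cocompact ℂ := by
    rw [OnePoint.nhdsNE_infty_eq, comap_map OnePoint.coe_injective, coclosedCompact_eq_cocompact]
  rw [e]
  exact h.limUnder_eq

lemma PP_ne_zero_of_deriv {z : ℂ} (h : (derivative PP).eval z = 0) : PP.eval z ≠ 0 := by
  intro h0
  rw [PP_deriv_eval] at h
  rw [PP_eval] at h0
  have : (62284460 : ℂ) = 0 := by
    linear_combination (511216 - 48157 * z + 38156 * z ^ 2) * h0 +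
      (-304108 - 78830 * z + 4885 * z ^ 2 - 9539 * z ^ 3) * h
  norm_num at this

lemma tendsto_coe_infty_of_norm {l : Filter ℂ} {f : ℂ → ℂ}
    (h : Tendsto (fun z => ‖f z‖) l atTop) :
    Tendsto (fun z : ℂ => ((f z : ℂ) : OnePoint ℂ)) l (𝓝 OnePoint.infty) := by
  have h1 : Tendsto f l (cocompact ℂ) := by
    rw [← Metric.cobounded_eq_cocompact]
    exact tendsto_norm_atTop_iff_cobounded.mp h
  have h2 := OnePoint.tendsto_coe_infty (X := ℂ)
  rw [coclosedCompact_eq_cocompact] at h2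
  exact h2.comp h1

lemma tendsto_coe_of_tendsto {l : Filter ℂ} {f : ℂ → ℂ} {y : ℂ}
    (h : Tendsto f l (𝓝 y)) :
    Tendsto (fun z : ℂ => ((f z : ℂ) : OnePoint ℂ)) l (𝓝 (y : OnePoint ℂ)) :=
  (OnePoint.continuous_coe.tendsto y).comp h

/-- `w^4 P(1/w)` -/
def Aw (w : ℂ) : ℂ := 1 + 3 * w - 5 * w ^ 2 + 7 * w ^ 3 + 126 * w ^ 4
/-- `w^3 P'(1/w)` -/
def Bw (w : ℂ) : ℂ := 4 + 9 * w - 10 * w ^ 2 + 7 * w ^ 3

lemma tendsto_inv_inf : Tendsto (fun z : ℂ => z⁻¹) (cocompact ℂ) (𝓝 0) := by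
  rw [← Metric.cobounded_eq_cocompact]
  exact tendsto_inv₀_cobounded

lemma Aw_tendsto : Tendsto (fun z : ℂ => Aw z⁻¹) (cocompact ℂ) (𝓝 1) := by
  have hc : Continuous Aw := by unfold Aw; fun_prop
  have := (hc.tendsto 0).comp tendsto_inv_inf
  have e : Aw 0 = 1 := by simp [Aw]
  rw [e] at this
  exact this

lemma Bw_tendsto : Tendsto (fun z : ℂ => Bw z⁻¹) (cocompact ℂ) (𝓝 4) := by
  have hc : Continuous Bw := by unfold Bw; fun_prop
  have := (hc.tendsto 0).comp tendsto_inv_inf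
  have e : Bw 0 = 4 := by simp [Bw]
  rw [e] at this
  exact this

lemma PP_Aw {z : ℂ} (hz : z ≠ 0) : PP.eval z = z ^ 4 * Aw z⁻¹ := by
  rw [PP_eval]; unfold Aw; field_simp

lemma PP_Bw {z : ℂ} (hz : z ≠ 0) : (derivative PP).eval z = z ^ 3 * Bw z⁻¹ := by
  rw [PP_deriv_eval]; unfold Bw; field_simp

lemma F_infty_ne {α : ℝ} (hα : α ≠ 4) : F PP α OnePoint.infty = OnePoint.infty := by
  apply F_eq_infty
  apply tendsto_coe_infty_of_norm
  have h1 : Tendsto (fun z : ℂ => 1 - (α : ℂ) * (Aw z⁻¹ / Bw z⁻¹)) (cocompact ℂ)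
      (𝓝 (1 - (α : ℂ) * (1 / 4))) := by
    apply Tendsto.sub tendsto_const_nhds
    apply Tendsto.const_mul
    exact Aw_tendsto.div Bw_tendsto (by norm_num)
  have h2 : (1 - (α : ℂ) * (1 / 4)) ≠ 0 := by
    intro h
    apply hα
    have : (α : ℂ) = 4 := by linear_combination (-4) * h
    exact_mod_cast this
  have h3 : Tendsto (fun z : ℂ => ‖z‖ * ‖1 - (α : ℂ) * (Aw z⁻¹ / Bw z⁻¹)‖) (cocompact ℂ) atTop := by
    apply Tendsto.atTop_mul_pos (norm_pos_iff.mpr h2) (tendsto_norm_cocompact_atTop) h1.norm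
  apply h3.congr'
  have h4 : ∀ᶠ z : ℂ in cocompact ℂ, z ≠ 0 := by
    have := (isCompact_singleton (x := (0 : ℂ))).compl_mem_cocompact
    filter_upwards [this] with z hz
    simpa using hz
  filter_upwards [h4] with z hz
  rw [← norm_mul]
  congr 1
  unfold Fa
  rw [PP_Aw hz, PP_Bw hz]
  have h5 : z ^ 4 * Aw z⁻¹ / (z ^ 3 * Bw z⁻¹) = z * (Aw z⁻¹ / Bw z⁻¹) := by
    rw [mul_div_mul_comm]
    congr 1
    field_simp
  rw [h5]; ring

lemma F_infty_four : F PP 4 OnePoint.infty = ((-3 / 4 : ℂ) : OnePoint ℂ) := by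
  apply F_eq_infty
  apply tendsto_coe_of_tendsto
  have h1 : Tendsto (fun z : ℂ => (-3 + 10 * z⁻¹ - 21 * z⁻¹ ^ 2 - 504 * z⁻¹ ^ 3) / Bw z⁻¹)
      (cocompact ℂ) (𝓝 (-3 / 4)) := by
    apply Tendsto.div _ Bw_tendsto (by norm_num)
    have hc : Continuous (fun w : ℂ => -3 + 10 * w - 21 * w ^ 2 - 504 * w ^ 3) := by fun_prop
    have h2 := (hc.tendsto 0).comp tendsto_inv_inf
    have e : (-3 + 10 * 0 - 21 * 0 ^ 2 - 504 * 0 ^ 3 : ℂ) = -3 := by norm_num
    rw [e] at h2
    exact h2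
  apply h1.congr'
  have h4 : ∀ᶠ z : ℂ in cocompact ℂ, z ≠ 0 := by
    have := (isCompact_singleton (x := (0 : ℂ))).compl_mem_cocompact
    filter_upwards [this] with z hz
    simpa using hz
  have h5 : ∀ᶠ z : ℂ in cocompact ℂ, Bw z⁻¹ ≠ 0 :=
    Bw_tendsto.eventually_ne (by norm_num)
  filter_upwards [h4, h5] with z hz hB
  unfold Fa
  rw [PP_Aw hz, PP_Bw hz]
  have h5 : z ^ 4 * Aw z⁻¹ / (z ^ 3 * Bw z⁻¹) = z * (Aw z⁻¹ / Bw z⁻¹) := by
    rw [mul_div_mul_comm]
    congr 1
    field_simp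
  rw [h5]
  have h6 : z - ((4 : ℝ) : ℂ) * (z * (Aw z⁻¹ / Bw z⁻¹)) =
      (z * Bw z⁻¹ - 4 * z * Aw z⁻¹) / Bw z⁻¹ := by
    have h7 : Aw z⁻¹ / Bw z⁻¹ * Bw z⁻¹ = Aw z⁻¹ := div_mul_cancel₀ _ hB
    rw [eq_div_iff hB]
    push_cast
    linear_combination (-4 * z) * h7
  rw [h6]
  congr 1
  unfold Aw Bw
  field_simp
  ring

lemma F_zero (z : ℂ) : F PP 0 (z : OnePoint ℂ) = (z : OnePoint ℂ) := by
  apply F_eq_coe
  apply tendsto_coe_of_tendsto
  have : Fa 0 = fun z => z := by
    funext z; simp [Fa]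
  rw [this]
  exact tendsto_id.mono_left nhdsWithin_le_nhds

lemma Fa_continuousAt (α : ℝ) {z : ℂ} (hz : (derivative PP).eval z ≠ 0) :
    ContinuousAt (Fa α) z := by
  unfold Fa
  apply ContinuousAt.sub continuousAt_id
  apply ContinuousAt.mul continuousAt_const
  exact ContinuousAt.div PP.continuous.continuousAt (derivative PP).continuous.continuousAt hz

lemma F_coe (α : ℝ) {z : ℂ} (hz : (derivative PP).eval z ≠ 0) :
    F PP α (z : OnePoint ℂ) = (Fa α z : OnePoint ℂ) := by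
  apply F_eq_coe
  apply tendsto_coe_of_tendsto
  exact (Fa_continuousAt α hz).tendsto.mono_left nhdsWithin_le_nhds

lemma deriv_ne_zero : derivative PP ≠ 0 := by
  intro h
  have := PP_deriv_eval 0
  rw [h] at this
  norm_num at this

lemma F_pole {α : ℝ} (hα : α ≠ 0) {z0 : ℂ} (hz : (derivative PP).eval z0 = 0) :
    F PP α (z0 : OnePoint ℂ) = OnePoint.infty := by
  apply F_eq_coe
  apply tendsto_coe_infty_of_norm
  have hP := PP_ne_zero_of_deriv hz
  have h1 : Tendsto (fun z => (derivative PP).eval z) (𝓝[≠] z0) (𝓝[≠] 0) := by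
    rw [tendsto_nhdsWithin_iff]
    constructor
    · rw [← hz]
      exact (derivative PP).continuous.continuousAt.tendsto.mono_left nhdsWithin_le_nhds
    · have hfin : {z | (derivative PP).eval z = 0}.Finite := by
        have := (derivative PP).rootSet_finite ℂ
        refine this.subset ?_
        intro z hz
        rw [mem_rootSet]
        exact ⟨deriv_ne_zero, by simpa using hz⟩
      have h2 : ({z | (derivative PP).eval z = 0} \ {z0})ᶜ ∈ 𝓝 z0 := by
        apply IsOpen.mem_nhds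
        · exact (hfin.subset Set.sdiff_subset).isClosed.isOpen_compl
        · simp
      filter_upwards [nhdsWithin_le_nhds h2, self_mem_nhdsWithin] with z hz1 hz2
      simp only [Set.mem_compl_iff, Set.mem_sdiff, Set.mem_ofPred_eq, Set.mem_singleton_iff] at *
      tauto
  have h2 : Tendsto (fun z => ‖((derivative PP).eval z)⁻¹‖) (𝓝[≠] z0) atTop := by
    have := (tendsto_inv₀_nhdsNE_zero (α := ℂ)).comp h1
    exact tendsto_norm_atTop_iff_cobounded.mpr this
  have h3 : Tendsto (fun z => ‖(α : ℂ) * PP.eval z‖) (𝓝[≠] z0) (𝓝 ‖(α : ℂ) * PP.eval z0‖) := by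
    have : Continuous (fun z => ‖(α : ℂ) * PP.eval z‖) := by
      have := PP.continuous
      fun_prop
    exact (this.tendsto z0).mono_left nhdsWithin_le_nhds
  have h4 : 0 < ‖(α : ℂ) * PP.eval z0‖ := by
    rw [norm_pos_iff]
    exact mul_ne_zero (by exact_mod_cast hα) hP
  have h5 := h2.atTop_mul_pos h4 h3
  have h6 : Tendsto (fun z : ℂ => -‖z‖) (𝓝[≠] z0) (𝓝 (-‖z0‖)) := by
    have : Continuous (fun z : ℂ => -‖z‖) := by fun_prop
    exact (this.tendsto z0).mono_left nhdsWithin_le_nhds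
  have h8 : Tendsto (fun z => ‖((derivative PP).eval z)⁻¹‖ * ‖(α : ℂ) * PP.eval z‖ + -‖z‖)
      (𝓝[≠] z0) atTop := h5.atTop_add h6
  apply tendsto_atTop_mono _ h8
  intro z
  unfold Fa
  have e : (α : ℂ) * (PP.eval z / (derivative PP).eval z) =
      ((derivative PP).eval z)⁻¹ * ((α : ℂ) * PP.eval z) := by
    rw [div_eq_mul_inv]; ring
  rw [e, ← norm_mul]
  have := norm_sub_norm_le (((derivative PP).eval z)⁻¹ * ((α : ℂ) * PP.eval z)) z
  rw [norm_sub_rev z]
  linarith

lemma deriv2_eval (z : ℂ) : (derivative (derivative PP)).eval z = 12 * z ^ 2 + 18 * z - 10 := by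
  simp [PP]; ring

lemma not_crit {α : ℝ} {z0 : ℂ} (hz : (derivative PP).eval z0 ≠ 0)
    (hd : (derivative PP).eval z0 ^ 2 - α * ((derivative PP).eval z0 ^ 2 -
      PP.eval z0 * (derivative (derivative PP)).eval z0) ≠ 0) :
    ¬ IsCriticalPoint (F PP α) (z0 : OnePoint ℂ) := by
  intro hcrit
  have h1 : HasStrictDerivAt (Fa α) (1 - α * (((derivative PP).eval z0 *
      (derivative PP).eval z0 - PP.eval z0 * (derivative (derivative PP)).eval z0) /
        (derivative PP).eval z0 ^ 2)) z0 := by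
    unfold Fa
    apply HasStrictDerivAt.sub (hasStrictDerivAt_id z0)
    apply HasStrictDerivAt.const_mul
    exact (PP.hasStrictDerivAt z0).div ((derivative PP).hasStrictDerivAt z0) hz
  have h2 : (1 - α * (((derivative PP).eval z0 *
      (derivative PP).eval z0 - PP.eval z0 * (derivative (derivative PP)).eval z0) /
        (derivative PP).eval z0 ^ 2)) ≠ 0 := by
    intro h
    apply hd
    have h3 : (derivative PP).eval z0 ^ 2 ≠ 0 := pow_ne_zero 2 hz
    field_simp at h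
    linear_combination h
  have h3 := h1.hasStrictFDerivAt_equiv h2
  set e := h3.toOpenPartialHomeomorph (Fa α) with he
  have hmem : z0 ∈ e.source := h3.mem_toOpenPartialHomeomorph_source
  have hinj : Set.InjOn (Fa α) e.source := by
    have := e.injOn
    rwa [he, h3.toOpenPartialHomeomorph_coe] at this
  have hU : e.source ∩ {z | (derivative PP).eval z ≠ 0} ∈ 𝓝 z0 := by
    apply inter_mem (e.open_source.mem_nhds hmem)
    exact (derivative PP).continuous.continuousAt.eventually_ne hz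
  apply hcrit _ (OnePoint.isOpenEmbedding_coe.image_mem_nhds.mpr hU)
  rintro _ ⟨a, ha, rfl⟩ _ ⟨b, hb, rfl⟩ hab
  rw [F_coe α ha.2, F_coe α hb.2] at hab
  rw [hinj ha.1 hb.1 (OnePoint.coe_injective hab)]

/-- the two equations satisfied by a critical value -/
def E1 (u : ℂ) (α : ℝ) (z : ℂ) : ℂ :=
  (z - u) * (4 * z ^ 3 + 9 * z ^ 2 - 10 * z + 7) - α * (z ^ 4 + 3 * z ^ 3 - 5 * z ^ 2 + 7 * z + 126)

/-- second equation -/
def E2 (u : ℂ) (α : ℝ) (z : ℂ) : ℂ :=
  (4 * z ^ 3 + 9 * z ^ 2 - 10 * z + 7) + (z - u) * (12 * z ^ 2 + 18 * z - 10)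
    - α * (4 * z ^ 3 + 9 * z ^ 2 - 10 * z + 7)

lemma crit_cases {u : ℂ} (hu : u ∈ criticalValues PP) :
    u = -3 / 4 ∨ ∃ α : ℝ, 0 ≤ α ∧ α ≤ 4 ∧ ∃ z : ℂ, E1 u α z = 0 ∧ E2 u α z = 0 := by
  obtain ⟨α, h0, h4, x, hx, hxu⟩ := hu
  rw [PP_natDegree] at h4
  push_cast at h4
  induction x using OnePoint.rec with
  | infty =>
    by_cases hα : α = 4
    · subst hα
      rw [F_infty_four] at hxu
      left
      exact (OnePoint.coe_injective hxu).symm
    · rw [F_infty_ne hα] at hxu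
      exact absurd hxu.symm (OnePoint.coe_ne_infty u)
  | coe z =>
    by_cases hα : α = 0
    · exfalso
      subst hα
      apply hx (Set.range ((↑) : ℂ → OnePoint ℂ))
      · exact OnePoint.isOpenEmbedding_coe.isOpen_range.mem_nhds ⟨z, rfl⟩
      · rintro _ ⟨a, rfl⟩ _ ⟨b, rfl⟩ hab
        rw [F_zero, F_zero] at hab
        exact hab
    · by_cases hz : (derivative PP).eval z = 0
      · rw [F_pole hα hz] at hxu
        exact absurd hxu.symm (OnePoint.coe_ne_infty u)
      · right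
        refine ⟨α, h0, h4, z, ?_⟩
        rw [F_coe α hz] at hxu
        have e1 : Fa α z = u := OnePoint.coe_injective hxu
        have e2 : (derivative PP).eval z ^ 2 - α * ((derivative PP).eval z ^ 2 -
            PP.eval z * (derivative (derivative PP)).eval z) = 0 := by
          by_contra hne
          exact not_crit hz hne hx
        have e3 : (z - u) * (derivative PP).eval z - α * PP.eval z = 0 := by
          rw [← e1]
          unfold Fa
          field_simp
          ring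
        have e4 : (derivative PP).eval z + (z - u) * (derivative (derivative PP)).eval z
            - α * (derivative PP).eval z = 0 := by
          have : (derivative PP).eval z * ((derivative PP).eval z +
              (z - u) * (derivative (derivative PP)).eval z - α * (derivative PP).eval z) = 0 := by
            linear_combination e2 + (derivative (derivative PP)).eval z * e3
          exact (mul_eq_zero.mp this).resolve_left hz
        rw [PP_deriv_eval, PP_eval] at e3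
        rw [PP_deriv_eval, deriv2_eval] at e4
        exact ⟨e3, e4⟩

/-! ### the closure of the set of critical values -/

lemma closed_proj {X Y : Type*} [TopologicalSpace X] [TopologicalSpace Y] {C : Set Y}
    (hC : IsCompact C) {T : Set (X × Y)} (hT : IsClosed T) : IsClosed {x | ∃ y ∈ C, (x, y) ∈ T} := by
  have : CompactSpace C := isCompact_iff_compactSpace.mp hC
  have h1 : IsClosed ((fun p : X × C => (p.1, (p.2 : Y))) ⁻¹' T) :=
    hT.preimage (by fun_prop)
  have h2 := isClosedMap_fst_of_compactSpace _ h1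
  convert h2 using 1
  ext x
  constructor
  · rintro ⟨y, hy, hxy⟩
    exact ⟨(x, ⟨y, hy⟩), hxy, rfl⟩
  · rintro ⟨⟨x', y⟩, hxy, rfl⟩
    exact ⟨y, y.2, hxy⟩

/-- parameter space -/
def Par : Set (ℝ × ℂ) := Set.Icc 0 4 ×ˢ Metric.closedBall 0 1

lemma Par_compact : IsCompact Par := isCompact_Icc.prod (isCompact_closedBall 0 1)

/-- first piece -/
def K1 : Set ℂ := {u | ∃ p ∈ Par, (u, p) ∈ {q : ℂ × (ℝ × ℂ) | E1 q.1 q.2.1 q.2.2 = 0 ∧
  E2 q.1 q.2.1 q.2.2 = 0}}

/-- `w^4 E1(1/w)` -/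
def H1 (u : ℂ) (α : ℝ) (w : ℂ) : ℂ := (1 - u * w) * Bw w - α * Aw w
/-- its derivative -/
def H2 (u : ℂ) (α : ℝ) (w : ℂ) : ℂ := -u * Bw w + (1 - u * w) * (9 - 20 * w + 21 * w ^ 2)
  - α * (3 - 10 * w + 21 * w ^ 2 + 504 * w ^ 3)

/-- second piece -/
def K2 : Set ℂ := {u | ∃ p ∈ Par, (u, p) ∈ {q : ℂ × (ℝ × ℂ) | H1 q.1 q.2.1 q.2.2 = 0 ∧
  H2 q.1 q.2.1 q.2.2 = 0}}

lemma K1_closed : IsClosed K1 := by
  apply closed_proj Par_compact
  apply IsClosed.inter
  · apply isClosed_eq _ continuous_const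
    unfold E1; fun_prop
  · apply isClosed_eq _ continuous_const
    unfold E2; fun_prop

lemma K2_closed : IsClosed K2 := by
  apply closed_proj Par_compact
  apply IsClosed.inter
  · apply isClosed_eq _ continuous_const
    unfold H1 Aw Bw; fun_prop
  · apply isClosed_eq _ continuous_const
    unfold H2 Bw; fun_prop

lemma E1_inv {u : ℂ} {α : ℝ} {z : ℂ} (hz : z ≠ 0) : E1 u α z = z ^ 4 * H1 u α z⁻¹ := by
  unfold E1 H1 Aw Bw
  field_simp

lemma E2_inv {u : ℂ} {α : ℝ} {z : ℂ} (hz : z ≠ 0) :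
    E2 u α z = 4 * z ^ 3 * H1 u α z⁻¹ - z ^ 2 * H2 u α z⁻¹ := by
  unfold E2 H1 H2 Aw Bw
  field_simp
  ring

lemma crit_subset : criticalValues PP ⊆ K1 ∪ K2 ∪ {-3 / 4} := by
  intro u hu
  rcases crit_cases hu with h | ⟨α, h0, h4, z, h1, h2⟩
  · exact Or.inr h
  · left
    by_cases hz : ‖z‖ ≤ 1
    · left
      exact ⟨(α, z), ⟨⟨h0, h4⟩, by simpa using hz⟩, h1, h2⟩
    · right
      push Not at hz
      have hz0 : z ≠ 0 := by
        intro h; rw [h] at hz; simp at hz; linarith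
      rw [E1_inv hz0] at h1
      have h3 : H1 u α z⁻¹ = 0 := (mul_eq_zero.mp h1).resolve_left (pow_ne_zero 4 hz0)
      rw [E2_inv hz0, h3] at h2
      have h4' : H2 u α z⁻¹ = 0 := by
        have : z ^ 2 * H2 u α z⁻¹ = 0 := by linear_combination -h2
        exact (mul_eq_zero.mp this).resolve_left (pow_ne_zero 2 hz0)
      refine ⟨(α, z⁻¹), ⟨⟨h0, h4⟩, ?_⟩, h3, h4'⟩
      simp only [Metric.mem_closedBall, dist_zero_right, norm_inv]
      exact inv_le_one_of_one_le₀ hz.le

lemma no_double {u α : ℝ} (hu : 0 ≤ u) (h0 : 0 ≤ α) (h4 : α ≤ 4) {z : ℂ}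
    (h1 : E1 u α z = 0) (h2 : E2 u α z = 0) : False := by
  obtain ⟨a, b⟩ := z
  by_cases hb : b = 0
  · subst hb
    have e1 := congrArg Complex.re h1
    have e2 := congrArg Complex.re h2
    simp only [E1, E2, pow_succ, pow_zero, one_mul, Complex.add_re, Complex.sub_re, Complex.mul_re,
        Complex.mul_im, Complex.add_im, Complex.sub_im, Complex.re_ofNat, Complex.im_ofNat,
        Complex.ofReal_re, Complex.ofReal_im, Complex.zero_re] at e1 e2
    apply no_real_double u α a hu h0 h4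
    · unfold p1 p0
      linear_combination e1
    · unfold p1 p2
      linear_combination e2
  · have e1 := congrArg Complex.re h1
    have e2 := congrArg Complex.re h2
    have e3 := congrArg Complex.im h1
    have e4 := congrArg Complex.im h2
    simp only [E1, E2, pow_succ, pow_zero, one_mul, Complex.add_re, Complex.sub_re, Complex.mul_re,
        Complex.mul_im, Complex.add_im, Complex.sub_im, Complex.re_ofNat, Complex.im_ofNat,
        Complex.ofReal_re, Complex.ofReal_im, Complex.zero_re, Complex.zero_im] at e1 e2 e3 e4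
    apply no_complex_double u α a b hb h0 h4 _ _ _ _ _ rfl rfl rfl rfl rfl
    · unfold p0 p1 p2 p3
      linear_combination e1
    · unfold p1 p2 p3
      linear_combination e3
    · unfold p1 p2 p3
      linear_combination e2
    · unfold p2 p3
      linear_combination e4

lemma not_mem_closure {s : ℝ} (hs : 0 ≤ s) : (s : ℂ) ∉ closure (criticalValues PP) := by
  intro hmem
  have hcl : IsClosed (K1 ∪ K2 ∪ {(-3 / 4 : ℂ)}) :=
    (K1_closed.union K2_closed).union isClosed_singleton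
  have h := hcl.closure_subset_iff.mpr crit_subset hmem
  rcases h with (h | h) | h
  · obtain ⟨⟨α, z⟩, ⟨⟨h0, h4⟩, _⟩, h1, h2⟩ := h
    exact no_double hs h0 h4 h1 h2
  · obtain ⟨⟨α, w⟩, ⟨⟨h0, h4⟩, _⟩, h1, h2⟩ := h
    simp only at h0 h4 h1 h2
    by_cases hw : w = 0
    · subst hw
      have e1 := congrArg Complex.re h1
      have e2 := congrArg Complex.re h2
      simp [H1, H2, Aw, Bw] at e1 e2
      nlinarith
    · have hw' : w⁻¹ ≠ 0 := inv_ne_zero hw
      refine no_double hs h0 h4 (z := w⁻¹) ?_ ?_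
      · rw [E1_inv hw', inv_inv, h1, mul_zero]
      · rw [E2_inv hw', inv_inv, h1, h2]; ring
  · have h' : (s : ℂ) = -3 / 4 := h
    have e1 := congrArg Complex.re h'
    norm_num at e1
    linarith

/-! ### the boundary point -/

lemma exists_frontier (Y : Set ℂ) (hY : IsClosed Y) (hre : ∀ z ∈ Y, z.re ≤ 2)
    (x0 : ℝ) (hx0 : 0 ≤ x0) (hx0Y : (x0 : ℂ) ∈ Y) :
    ∃ s : ℝ, 0 ≤ s ∧ (s : ℂ) ∈ frontier Y := by
  set A : Set ℝ := {x : ℝ | (x : ℂ) ∈ Y} with hA
  have hAcl : IsClosed A := hY.preimage Complex.continuous_ofReal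
  have hbdd : BddAbove A := ⟨2, fun x hx => by simpa using hre x hx⟩
  have hne : A.Nonempty := ⟨x0, hx0Y⟩
  have hmem : sSup A ∈ A := hAcl.csSup_mem hne hbdd
  refine ⟨sSup A, le_trans hx0 (le_csSup hbdd hx0Y), ?_⟩
  rw [frontier, hY.closure_eq]
  refine ⟨hmem, ?_⟩
  intro hint
  have hint' : (sSup A) ∈ Complex.ofReal ⁻¹' (interior Y) := hint
  have hopen : IsOpen (Complex.ofReal ⁻¹' (interior Y)) :=
    isOpen_interior.preimage Complex.continuous_ofReal
  obtain ⟨ε, hε, hball⟩ := Metric.isOpen_iff.mp hopen _ hint'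
  have h1 : sSup A + ε / 2 ∈ Metric.ball (sSup A) ε := by
    rw [Metric.mem_ball, Real.dist_eq]
    rw [show sSup A + ε / 2 - sSup A = ε / 2 by ring, abs_of_pos (by positivity)]
    linarith
  have h2 : sSup A + ε / 2 ∈ A := by
    have h2' : ((sSup A + ε / 2 : ℝ) : ℂ) ∈ interior Y := hball h1
    have h2'' : ((sSup A + ε / 2 : ℝ) : ℂ) ∈ Y := interior_subset h2'
    exact h2''
  have h3 := le_csSup hbdd h2
  linarith

lemma re_le_closed : IsClosed {z : ℂ | z.re ≤ 2} :=
  isClosed_le Complex.continuous_re continuous_const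

lemma tail_re (N : ℕ) : ∀ z ∈ tailShadow PP N, z.re ≤ 2 := by
  intro z hz
  refine re_le_closed.closure_subset_iff.mpr ?_ hz
  rintro w ⟨n, m, _, hn, hm, hw⟩
  rw [PP_natDegree] at hm
  exact roots_re_le n m hn hm w hw

lemma tail_real (N : ℕ) : ∃ x ∈ Set.Icc (0 : ℝ) (1 / 2), (x : ℂ) ∈ tailShadow PP N := by
  obtain ⟨m, hm, x, hx0, hx1, hx⟩ := exists_real_zero (N + 1) (by omega)
  refine ⟨x, ⟨hx0, hx1⟩, subset_closure ⟨N + 1, m, by omega, by omega, ?_, hx⟩⟩
  rw [PP_natDegree]; exact hm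

lemma tail_anti {M N : ℕ} (h : M ≤ N) : tailShadow PP N ⊆ tailShadow PP M := by
  apply closure_mono
  rintro z ⟨n, m, hn, hn1, hm, hz⟩
  exact ⟨n, m, by omega, hn1, hm, hz⟩

lemma tail_zero : tailShadow PP 0 = shadow PP := by
  unfold tailShadow shadow
  congr 1
  ext z
  constructor
  · rintro ⟨n, m, _, hn1, hm, hz⟩
    exact ⟨n, m, hn1, hm, hz⟩
  · rintro ⟨n, m, hn1, hm, hz⟩
    exact ⟨n, m, by omega, hn1, hm, hz⟩

lemma inter_real : ∃ x ∈ Set.Icc (0 : ℝ) (1 / 2), (x : ℂ) ∈ ⋂ N, tailShadow PP N := by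
  have h := IsCompact.nonempty_iInter_of_directed_nonempty_isCompact_isClosed
    (fun N : ℕ => Set.Icc (0 : ℝ) (1 / 2) ∩ Complex.ofReal ⁻¹' (tailShadow PP N))
    (by
      intro M N
      refine ⟨max M N, ?_, ?_⟩
      · exact Set.inter_subset_inter_right _ (Set.preimage_mono (tail_anti (le_max_left _ _)))
      · exact Set.inter_subset_inter_right _ (Set.preimage_mono (tail_anti (le_max_right _ _))))
    (by
      intro N
      obtain ⟨x, hx, hx2⟩ := tail_real N
      exact ⟨x, hx, hx2⟩)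
    (by
      intro N
      exact isCompact_Icc.inter_right (isClosed_closure.preimage Complex.continuous_ofReal))
    (by
      intro N
      exact isClosed_Icc.inter (isClosed_closure.preimage Complex.continuous_ofReal))
  obtain ⟨x, hx⟩ := h
  rw [Set.mem_iInter] at hx
  refine ⟨x, (hx 0).1, ?_⟩
  rw [Set.mem_iInter]
  exact fun N => (hx N).2

end sphere

/-- There is a polynomial `P` of degree at least `3` whose zeros are in convex position and do not
form a regular polygon such that some boundary point of the shadow of `P` is not a critical value of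
any `F_α`, `α ∈ [0, deg P]`; it is not even in the closure of the set `C_P` of these critical
values. The same holds for every tail shadow, in which only the powers `P ^ n` with `n ≥ N` are used,
and for the intersection of the tail shadows. -/
theorem result : ∃ P : ℂ[X], 3 ≤ P.natDegree ∧ ConvexPosition (zeroSet P) ∧
    ¬ RegularPolygon (zeroSet P) ∧
    (∃ u ∈ frontier (shadow P), u ∉ closure (criticalValues P)) ∧
    (∀ N : ℕ, ∃ u ∈ frontier (tailShadow P N), u ∉ closure (criticalValues P)) ∧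
    (∃ u ∈ frontier (⋂ N : ℕ, tailShadow P N), u ∉ closure (criticalValues P)) := by
  open Pool.Agent.H53.Shadow in
  have hN : ∀ N : ℕ, ∃ u ∈ frontier (tailShadow PP N), u ∉ closure (criticalValues PP) := by
    intro N
    obtain ⟨x, hx, hxY⟩ := tail_real N
    obtain ⟨s, hs, hsf⟩ := exists_frontier (tailShadow PP N) isClosed_closure (tail_re N) x hx.1 hxY
    exact ⟨s, hsf, not_mem_closure hs⟩
  refine ⟨Pool.Agent.H53.Shadow.PP, ?_, ?_, ?_, ?_, hN, ?_⟩
  · rw [Pool.Agent.H53.Shadow.PP_natDegree]; norm_num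
  · refine ⟨?_, ?_, ?_⟩
    · have := Pool.Agent.H53.Shadow.zeros_eq
      unfold zeroSet
      rw [this]
      exact Finset.finite_toSet _
    · have := Pool.Agent.H53.Shadow.zeros_ncard
      unfold zeroSet
      omega
    · exact Pool.Agent.H53.Shadow.zeros_extreme
  · rintro ⟨c, ρ, _, hZ⟩
    have hcard : (zeroSet Pool.Agent.H53.Shadow.PP).ncard = 4 :=
      Pool.Agent.H53.Shadow.zeros_ncard
    rw [hcard] at hZ
    apply Pool.Agent.H53.Shadow.not_square c ρ
    intro z hz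
    have hz' : z ∈ zeroSet Pool.Agent.H53.Shadow.PP := hz
    rw [hZ] at hz'
    obtain ⟨j, _, rfl⟩ := hz'
    have e : c + ρ * Complex.exp (2 * Real.pi * Complex.I * j / (4 : ℕ)) - c =
        ρ * Complex.exp (2 * Real.pi * Complex.I * j / (4 : ℕ)) := by ring
    rw [e, mul_pow, ← Complex.exp_nat_mul]
    have e2 : ((4 : ℕ) : ℂ) * (2 * Real.pi * Complex.I * j / (4 : ℕ)) =
        j * (2 * Real.pi * Complex.I) := by
      push_cast; ring
    rw [e2, Complex.exp_nat_mul_two_pi_mul_I, mul_one]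
  · have := hN 0
    rwa [tail_zero] at this
  · obtain ⟨x, hx, hxY⟩ := inter_real
    obtain ⟨s, hs, hsf⟩ := exists_frontier (⋂ N : ℕ, tailShadow Pool.Agent.H53.Shadow.PP N)
      (isClosed_iInter fun N => isClosed_closure)
      (fun z hz => tail_re 0 z (Set.mem_iInter.mp hz 0)) x hx.1 hxY
    exact ⟨s, hsf, not_mem_closure hs⟩

end Pool.Agent.Results.MP_5fa6f1_an.ShadowBoundary
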